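import Mathlib
import Pool.Agent.SUB.Drv

/-!
AAL module PLP: random plantings into bounded polynomials of low degree, pointwise and linear in
the popularity (greedy choice of disjoint blocks by decreasing change).
-/

set_option linter.dupNamespace false

namespace Pool.Agent.AAL

open Finset Pool.Agent.Helper11.Cube Pool.Agent.Helper11.AA Pool.Agent.SUB

variable {n d : ℕ}

lemma mix_eq_flipOn (S : Finset (Fin n)) (y v : Cube n) :
    mix S y v = flipOn (S.filter (fun i => y i ≠ v i)) v := by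
  funext i
  unfold mix flipOn
  by_cases hi : i ∈ S
  · by_cases hy : y i = v i
    · simp [hi, hy]
    · have hm : i ∈ S.filter (fun i => y i ≠ v i) := by simp [hi, hy]
      simp only [hi, if_true, hm]
      rcases Int.units_eq_one_or (y i) with h1 | h1 <;>
        rcases Int.units_eq_one_or (v i) with h2 | h2 <;> simp_all
  · simp [hi]

/-- The weight of the elements whose set meets a given set. -/
lemma meet_le {Ω : Type*} [DecidableEq Ω] (μ : Ω → ℝ) (hμ : ∀ ω, 0 ≤ μ ω)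
    (C : Ω → Finset (Fin n)) {π : ℝ} (E : Finset Ω)
    (hπ : ∀ a, ∑ ω ∈ E.filter (fun ω => a ∈ C ω), μ ω ≤ π) (U : Finset (Fin n)) :
    ∑ ω ∈ E.filter (fun ω => ¬ Disjoint (C ω) U), μ ω ≤ (U.card : ℝ) * π := by
  have h1 : ∑ ω ∈ E.filter (fun ω => ¬ Disjoint (C ω) U), μ ω ≤
      ∑ ω ∈ E, ∑ a ∈ U, (if a ∈ C ω then μ ω else 0) := by
    rw [Finset.sum_filter]
    refine Finset.sum_le_sum fun ω _ => ?_
    by_cases hd : Disjoint (C ω) U
    · rw [if_neg (not_not.2 hd)]
      exact Finset.sum_nonneg fun a _ => by split_ifs; exacts [hμ ω, le_refl _]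
    · rw [if_pos hd]
      obtain ⟨a, ha, haU⟩ := Finset.not_disjoint_iff.1 hd
      have h2 := Finset.single_le_sum (f := fun a => if a ∈ C ω then μ ω else 0)
        (fun a _ => by split_ifs; exacts [hμ ω, le_refl _]) haU
      simp only [if_pos ha] at h2
      exact h2
  refine h1.trans ?_
  rw [Finset.sum_comm]
  have h3 : ∀ a ∈ U, ∑ ω ∈ E, (if a ∈ C ω then μ ω else 0) ≤ π := by
    intro a _
    rw [← Finset.sum_filter]
    exact hπ a
  have h4 := Finset.sum_le_sum h3
  rwa [Finset.sum_const, nsmul_eq_mul] at h4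

/-- Greedy choice by decreasing value. -/
theorem greedy {Ω : Type*} [DecidableEq Ω] (μ Δ : Ω → ℝ) (hμ : ∀ ω, 0 ≤ μ ω)
    (hΔ : ∀ ω, 0 ≤ Δ ω) (C : Ω → Finset (Fin n)) (hC : ∀ ω, C ω = ∅ → Δ ω = 0) {K π : ℝ}
    (hπ0 : 0 ≤ π) (E : Finset Ω) :
    (∀ ω ∈ E, ((C ω).card : ℝ) ≤ K) → (∀ a, ∑ ω ∈ E.filter (fun ω => a ∈ C ω), μ ω ≤ π) →
    ∃ s ⊆ E, Set.PairwiseDisjoint (s : Set Ω) C ∧
      ∑ ω ∈ E, μ ω * Δ ω ≤ K * π * ∑ ω ∈ s, Δ ω := by
  induction E using Finset.strongInduction with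
  | H E ih =>
    intro hK hπ
    rcases E.eq_empty_or_nonempty with hE | hE
    · subst hE
      exact ⟨∅, Finset.Subset.refl _, by simp, by simp⟩
    obtain ⟨o, hoE, homax⟩ := Finset.exists_max_image E Δ hE
    rcases (hΔ o).eq_or_lt with h0 | h0
    · refine ⟨∅, Finset.empty_subset _, by simp, ?_⟩
      have : ∀ ω ∈ E, μ ω * Δ ω = 0 := by
        intro ω hω
        have h1 := homax ω hω
        have h2 : Δ ω = 0 := le_antisymm (by rw [h0]; exact h1) (hΔ ω)
        rw [h2, mul_zero]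
      rw [Finset.sum_eq_zero this]
      simp
    have hCo : C o ≠ ∅ := fun h => h0.ne' (hC o h)
    set E' : Finset Ω := E.filter (fun ω => Disjoint (C ω) (C o)) with hE'
    have hoE' : o ∉ E' := by
      intro h
      rw [hE', Finset.mem_filter, disjoint_self] at h
      exact hCo h.2
    have hss : E' ⊂ E := by
      rw [Finset.ssubset_iff_of_subset (Finset.filter_subset _ _)]
      exact ⟨o, hoE, hoE'⟩
    obtain ⟨s, hsE, hdis, hsum⟩ := ih E' hss (fun ω hω => hK ω (hss.subset hω)) (fun a => by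
      refine le_trans (Finset.sum_le_sum_of_subset_of_nonneg ?_ (fun ω _ _ => hμ ω)) (hπ a)
      exact Finset.filter_subset_filter _ hss.subset)
    refine ⟨insert o s, Finset.insert_subset hoE (hsE.trans hss.subset), ?_, ?_⟩
    · rw [Finset.coe_insert]
      refine Set.PairwiseDisjoint.insert hdis ?_
      intro b hb _
      have h1 := hsE hb
      rw [hE', Finset.mem_filter] at h1
      exact h1.2.symm
    · have hos : o ∉ s := fun h => hoE' (hsE h)
      rw [Finset.sum_insert hos]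
      rw [← Finset.sum_filter_add_sum_filter_not E (fun ω => Disjoint (C ω) (C o))]
      have h1 : ∑ ω ∈ E.filter (fun ω => ¬ Disjoint (C ω) (C o)), μ ω * Δ ω ≤
          (∑ ω ∈ E.filter (fun ω => ¬ Disjoint (C ω) (C o)), μ ω) * Δ o := by
        rw [Finset.sum_mul]
        refine Finset.sum_le_sum fun ω hω => ?_
        exact mul_le_mul_of_nonneg_left (homax ω (Finset.mem_filter.1 hω).1) (hμ ω)
      have h2 : (∑ ω ∈ E.filter (fun ω => ¬ Disjoint (C ω) (C o)), μ ω) ≤ K * π :=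
        (meet_le μ hμ C E hπ (C o)).trans (mul_le_mul_of_nonneg_right (hK o hoE) hπ0)
      have h3 := mul_le_mul_of_nonneg_right h2 h0.le
      rw [mul_add]
      linarith

/-- Insensitivity: the mean change under a random planting is linear in the popularity. -/
theorem insens_strong {Ω : Type*} [Fintype Ω] [DecidableEq Ω] (μ : Ω → ℝ) (hμ : ∀ ω, 0 ≤ μ ω)
    (C : Ω → Finset (Fin n)) (y : Ω → Cube n) {K π : ℝ} (hK0 : 0 ≤ K) (hπ0 : 0 ≤ π)
    (hK : ∀ ω, 0 < μ ω → ((C ω).card : ℝ) ≤ K)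
    (hπ : ∀ a, ∑ ω ∈ univ.filter (fun ω => a ∈ C ω), μ ω ≤ π)
    {g : Cube n → ℝ} (hg : Bdd d g) (v : Cube n) :
    ∑ ω, μ ω * |g (mix (C ω) (y ω) v) - g v| ≤ 4 * (d : ℝ) ^ 2 * K * π := by
  classical
  set Δ : Ω → ℝ := fun ω => |g (mix (C ω) (y ω) v) - g v| with hΔ
  set E : Finset Ω := univ.filter (fun ω => 0 < μ ω) with hE
  obtain ⟨s, hs, hdis, hsum⟩ := greedy μ Δ hμ (fun ω => abs_nonneg _) C (by
    intro ω h0
    have hm : mix (C ω) (y ω) v = v := by
      funext i; unfold mix; simp [h0]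
    simp [hΔ, hm]) hπ0 E (K := K) (fun ω hω => hK ω (Finset.mem_filter.1 hω).2) (fun a => by
      refine le_trans (Finset.sum_le_sum_of_subset_of_nonneg ?_ (fun ω _ _ => hμ ω)) (hπ a)
      exact Finset.filter_subset_filter _ (Finset.subset_univ _))
  have h1 : ∑ ω, μ ω * Δ ω = ∑ ω ∈ E, μ ω * Δ ω := by
    symm
    apply Finset.sum_subset (Finset.subset_univ _)
    intro ω _ hω
    have : μ ω = 0 := by
      by_contra hne
      exact hω (by rw [hE, Finset.mem_filter]; exact ⟨mem_univ _, lt_of_le_of_ne (hμ ω) (Ne.symm hne)⟩)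
    rw [this, zero_mul]
  have hB : Set.PairwiseDisjoint (s : Set Ω) (fun ω => (C ω).filter (fun i => y ω i ≠ v i)) := by
    intro a ha b hb hab
    exact (hdis ha hb hab).mono (Finset.filter_subset _ _) (Finset.filter_subset _ _)
  have hblk := abs_block hg s (fun ω => (C ω).filter (fun i => y ω i ≠ v i)) hB v
  have h2 : ∑ ω ∈ s, Δ ω ≤ 4 * (d : ℝ) ^ 2 := by
    refine le_trans (le_of_eq ?_) hblk
    refine Finset.sum_congr rfl fun ω _ => ?_
    rw [← mix_eq_flipOn, abs_sub_comm]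
  change ∑ ω, μ ω * Δ ω ≤ _
  rw [h1]
  refine hsum.trans ?_
  have h3 := mul_le_mul_of_nonneg_left h2 (mul_nonneg hK0 hπ0)
  linarith

/-- The planting bound: the mean of the derivative at the planted points. -/
theorem plant_pt {Ω : Type*} [Fintype Ω] [DecidableEq Ω] (μ : Ω → ℝ) (hμ : ∀ ω, 0 ≤ μ ω)
    (w : Ω → Fin n) (C : Ω → Finset (Fin n)) (y : Ω → Cube n) {K π : ℝ} (hK0 : 0 ≤ K)
    (hπ0 : 0 ≤ π) (hK : ∀ ω, 0 < μ ω → ((insert (w ω) (C ω)).card : ℝ) ≤ K)
    (hπ : ∀ a, ∑ ω ∈ univ.filter (fun ω => a ∈ insert (w ω) (C ω)), μ ω ≤ π)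
    {g : Cube n → ℝ} (hg : Bdd d g) (v : Cube n) :
    ∑ ω, μ ω * |discreteDeriv (w ω) g (mix (C ω) (y ω) v)| ≤ 4 * (d : ℝ) ^ 2 * K * π := by
  have e : ∀ (ω : Ω) (u : ℤˣ), Function.update (mix (C ω) (y ω) v) (w ω) u =
      mix (insert (w ω) (C ω)) (Function.update (y ω) (w ω) u) v := by
    intro ω u
    funext i
    by_cases hi : i = w ω
    · subst hi
      simp [mix]
    · simp [mix, hi]
  have h1 := insens_strong μ hμ (fun ω => insert (w ω) (C ω))
    (fun ω => Function.update (y ω) (w ω) 1) hK0 hπ0 hK hπ hg v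
  have h2 := insens_strong μ hμ (fun ω => insert (w ω) (C ω))
    (fun ω => Function.update (y ω) (w ω) (-1)) hK0 hπ0 hK hπ hg v
  have h3 : ∑ ω, μ ω * |discreteDeriv (w ω) g (mix (C ω) (y ω) v)| ≤
      ∑ ω, (μ ω * |g (mix (insert (w ω) (C ω)) (Function.update (y ω) (w ω) 1) v) - g v| +
        μ ω * |g (mix (insert (w ω) (C ω)) (Function.update (y ω) (w ω) (-1)) v) - g v|) / 2 := by
    refine Finset.sum_le_sum fun ω _ => ?_
    rw [← mul_add, mul_div_assoc]
    refine mul_le_mul_of_nonneg_left ?_ (hμ ω)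
    unfold discreteDeriv
    rw [e, e, abs_div, abs_of_pos (by norm_num : (0 : ℝ) < 2)]
    refine div_le_div_of_nonneg_right ?_ (by norm_num)
    have := abs_sub (g (mix (insert (w ω) (C ω)) (Function.update (y ω) (w ω) 1) v) - g v)
      (g (mix (insert (w ω) (C ω)) (Function.update (y ω) (w ω) (-1)) v) - g v)
    simpa using this
  refine h3.trans ?_
  rw [← Finset.sum_div, Finset.sum_add_distrib]
  linarith

end Pool.Agent.AAL
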