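import Mathlib
import Pool.Agent.AAL.PlantPt
import Pool.Agent.AA2.Rs
import Pool.Agent.SUB.Ent
import Pool.Agent.QAA.Inf
import Pool.Agent.QAA.Pop

/-!
AAL module PLS: the sum of the biases, and the planting inequality for the weights `Iw ^ 3`.
-/

set_option linter.dupNamespace false

namespace Pool.Agent.AAL

open Finset Pool.Agent.Helper11.Cube Pool.Agent.Helper11.AA Pool.Agent.SUB Pool.Agent.QAA
open Pool.Agent.AA2

variable {n d : ℕ}

/-- The bias is at most the mixed first order quantity. -/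
lemma bw_abs_le (f : Cube n → ℝ) (w a : Fin n) :
    |bw f w a| * Iw f w ≤
      2 * ex (fun x => |discreteDeriv w f x| * |discreteDeriv a (discreteDeriv w f) x|) := by
  obtain ⟨g, hg⟩ : ∃ g : Cube n → ℝ, g = discreteDeriv w f := ⟨_, rfl⟩
  rw [← hg]
  have h1 : bw f w a * Iw f w = ex (fun x => discreteDeriv a g x *
      (g (Function.update x a 1) + g (Function.update x a (-1)))) := by
    rw [bw_mul, ex_sg_mul]
    congr 1
    funext x
    unfold discreteDeriv gs
    rw [hg]
    ring
  have h2 := ex_update a (fun x => |g x| * |discreteDeriv a g x|)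
  rw [← h2]
  have h3 : |bw f w a| * Iw f w = |bw f w a * Iw f w| := by
    rw [abs_mul, abs_of_nonneg (Iw_nonneg f w)]
  rw [h3, h1, ← ex_const_mul]
  refine (abs_ex_le _).trans (ex_mono fun x => ?_)
  rw [abs_mul, deriv_update_self, deriv_update_self]
  have h4 := abs_add_le (g (Function.update x a 1)) (g (Function.update x a (-1)))
  have h5 := mul_le_mul_of_nonneg_left h4 (abs_nonneg (discreteDeriv a g x))
  linarith

/-- The sum of all biases. -/
lemma sum_bw_abs {f : Cube n → ℝ} (hf : Bdd d f) {e : ℝ} (he0 : 0 ≤ e)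
    (he : ∀ j x, |discreteDeriv j f x| ≤ e) :
    ∑ w, Iw f w * ∑ a, |bw f w a| ≤ 8 * (d : ℝ) ^ 4 * e := by
  calc ∑ w, Iw f w * ∑ a, |bw f w a|
      ≤ ∑ w, ∑ a, 2 * ex (fun x => |discreteDeriv w f x| *
          |discreteDeriv a (discreteDeriv w f) x|) := by
        refine Finset.sum_le_sum fun w _ => ?_
        rw [Finset.mul_sum]
        refine Finset.sum_le_sum fun a _ => ?_
        rw [mul_comm]
        exact bw_abs_le f w a
    _ = 2 * ex (fun x => ∑ w, |discreteDeriv w f x| *
          ∑ a, |discreteDeriv a (discreteDeriv w f) x|) := by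
        rw [ex_sum, Finset.mul_sum]
        refine Finset.sum_congr rfl fun w _ => ?_
        rw [← Finset.mul_sum]
        congr 1
        simp_rw [Finset.mul_sum]
        rw [ex_sum]
    _ ≤ 2 * ex (fun _ => 2 * (d : ℝ) ^ 2 * (2 * (d : ℝ) ^ 2 * e)) := by
        refine mul_le_mul_of_nonneg_left (ex_mono fun x => ?_) (by norm_num)
        calc ∑ w, |discreteDeriv w f x| * ∑ a, |discreteDeriv a (discreteDeriv w f) x|
            ≤ ∑ w, |discreteDeriv w f x| * (2 * (d : ℝ) ^ 2 * e) := by
              refine Finset.sum_le_sum fun w _ => ?_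
              exact mul_le_mul_of_nonneg_left
                (sum_abs_deriv_le (bdd_deriv hf w).1 (he w) x) (abs_nonneg _)
          _ = (∑ w, |discreteDeriv w f x|) * (2 * (d : ℝ) ^ 2 * e) := by
              rw [Finset.sum_mul]
          _ ≤ 2 * (d : ℝ) ^ 2 * (2 * (d : ℝ) ^ 2 * e) :=
              mul_le_mul_of_nonneg_right (sum_abs_deriv hf x) (by positivity)
    _ = 8 * (d : ℝ) ^ 4 * e := by rw [ex_const]; ring

/-- The total influence is at most `2 d^2 e`. -/
lemma sum_Iw_le_eps {f : Cube n → ℝ} (hf : Bdd d f) {e : ℝ} (he0 : 0 ≤ e)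
    (he : ∀ j x, |discreteDeriv j f x| ≤ e) : ∑ w, Iw f w ≤ 2 * (d : ℝ) ^ 2 * e := by
  unfold Iw
  rw [← ex_sum]
  calc ex (fun x => ∑ w, gs f w x) ≤ ex (fun _ => 2 * (d : ℝ) ^ 2 * e) := by
        refine ex_mono fun x => ?_
        calc ∑ w, gs f w x ≤ ∑ w, |discreteDeriv w f x| * e := by
              refine Finset.sum_le_sum fun w _ => ?_
              unfold gs
              rw [← sq_abs, sq]
              exact mul_le_mul_of_nonneg_left (he w x) (abs_nonneg _)
          _ = (∑ w, |discreteDeriv w f x|) * e := by rw [Finset.sum_mul]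
          _ ≤ 2 * (d : ℝ) ^ 2 * e := mul_le_mul_of_nonneg_right (sum_abs_deriv hf x) he0
    _ = 2 * (d : ℝ) ^ 2 * e := ex_const _

/-- The gain of a planting. -/
lemma gain {f : Cube n → ℝ} {e : ℝ} (he : ∀ j x, |discreteDeriv j f x| ≤ e) (w : Fin n)
    (C : Finset (Fin n)) :
    Iw f w ^ 2 * Real.exp (∑ a ∈ C, KL (bw f w a)) ≤
      e * ex (fun v => ex (fun x => gs f w x * |discreteDeriv w f (mix C x v)|)) := by
  have he0 : 0 ≤ e := (abs_nonneg _).trans (he w (fun _ => 1))
  rcases (Iw_nonneg f w).eq_or_lt with h0 | h0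
  · rw [← h0]
    have : 0 ≤ ex (fun v => ex (fun x => gs f w x * |discreteDeriv w f (mix C x v)|)) :=
      ex_nonneg fun v => ex_nonneg fun x => mul_nonneg (gs_nonneg f w x) (abs_nonneg _)
    have := mul_nonneg he0 this
    simpa using this
  have h1 := exp_sum_KL_le (h := gs f w) (fun x => gs_nonneg f w x) h0 C
  have h2 : ∀ x z, ex (fun v => gs f w (mix C (mix C x z) v)) =
      ex (fun v => gs f w (mix C x v)) := by
    intro x z
    congr 1
    ext v
    congr 1
    ext i
    unfold mix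
    split_ifs <;> rfl
  have h3 := ex_mix_mul C (gs f w) (fun x => ex (fun v => gs f w (mix C x v))) h2
  simp only at h3
  have h4 : (fun x => ex (fun z => gs f w (mix C x z)) * ex (fun v => gs f w (mix C x v))) =
      (fun x => ex (fun z => gs f w (mix C x z)) ^ 2) := by
    ext x
    ring
  rw [h4] at h3
  rw [h3] at h1
  have h5 : ex (fun x => gs f w x * ex (fun v => gs f w (mix C x v))) ≤
      e * ex (fun v => ex (fun x => gs f w x * |discreteDeriv w f (mix C x v)|)) := by
    rw [ex_comm, ← ex_const_mul]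
    refine ex_mono fun x => ?_
    rw [← ex_const_mul, ← ex_const_mul]
    refine ex_mono fun v => ?_
    have h6 : gs f w (mix C x v) ≤ e * |discreteDeriv w f (mix C x v)| := by
      unfold gs
      rw [← sq_abs, sq]
      exact mul_le_mul_of_nonneg_right (he w _) (abs_nonneg _)
    have h7 := mul_le_mul_of_nonneg_left h6 (gs_nonneg f w x)
    linarith
  refine le_trans (le_of_eq ?_) (h1.trans h5)
  rw [mul_comm]
  rfl

/-- The planting inequality for the weights `Iw ^ 3`. -/
theorem plant_sum {f : Cube n → ℝ} (hf : Bdd d f) {e : ℝ} (he0 : 0 ≤ e)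
    (he : ∀ j x, |discreteDeriv j f x| ≤ e) (W : Finset (Fin n)) (C : Fin n → Finset (Fin n))
    {K π : ℝ} (hK0 : 0 ≤ K) (hπ0 : 0 ≤ π) (hK : ∀ w ∈ W, ((insert w (C w)).card : ℝ) ≤ K)
    (hπ : ∀ a, ∑ w ∈ W.filter (fun w => a ∈ insert w (C w)), Iw f w ^ 3 ≤ π) :
    ∑ w ∈ W, Iw f w ^ 4 * Real.exp (∑ a ∈ C w, KL (bw f w a)) ≤
      4 * (d : ℝ) ^ 2 * K * π * e := by
  classical
  set μ : Fin n × Cube n → ℝ := fun z =>
    if z.1 ∈ W then Iw f z.1 ^ 2 * (gs f z.1 z.2 / 2 ^ n) else 0 with hμ
  have hμ0 : ∀ z, 0 ≤ μ z := by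
    intro z
    simp only [hμ]
    split_ifs
    · exact mul_nonneg (sq_nonneg _) (div_nonneg (gs_nonneg f _ _) (by positivity))
    · exact le_refl _
  have hμs : ∀ G : Fin n → Cube n → ℝ, ∑ z : Fin n × Cube n, μ z * G z.1 z.2 =
      ∑ w ∈ W, Iw f w ^ 2 * ex (fun x => gs f w x * G w x) := by
    intro G
    rw [Fintype.sum_prod_type]
    symm
    have h1 : ∀ w ∈ W, Iw f w ^ 2 * ex (fun x => gs f w x * G w x) =
        ∑ x : Cube n, μ (w, x) * G w x := by
      intro w hw
      simp only [hμ, if_pos hw]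
      unfold ex
      rw [Finset.sum_div, Finset.mul_sum]
      refine Finset.sum_congr rfl fun x _ => ?_
      ring
    rw [Finset.sum_congr rfl h1]
    apply Finset.sum_subset (Finset.subset_univ W)
    intro w _ hw
    simp [hμ, hw]
  have hpop : ∀ a, ∑ z ∈ univ.filter (fun z : Fin n × Cube n => a ∈ insert z.1 (C z.1)), μ z ≤
      π := by
    intro a
    rw [Finset.sum_filter]
    have h1 := hμs (fun w _ => if a ∈ insert w (C w) then 1 else 0)
    have h2 : ∑ z : Fin n × Cube n, (if a ∈ insert z.1 (C z.1) then μ z else 0) =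
        ∑ z : Fin n × Cube n, μ z * (if a ∈ insert z.1 (C z.1) then 1 else 0) := by
      refine Finset.sum_congr rfl fun z _ => ?_
      split_ifs <;> simp
    rw [h2, h1]
    refine le_trans (le_of_eq ?_) (hπ a)
    rw [Finset.sum_filter]
    refine Finset.sum_congr rfl fun w _ => ?_
    split_ifs
    · simp only [mul_one]
      change Iw f w ^ 2 * Iw f w = _
      ring
    · simp only [mul_zero]
      rw [ex_const, mul_zero]
  have hv : ∀ v, ∑ w ∈ W, Iw f w ^ 2 *
      ex (fun x => gs f w x * |discreteDeriv w f (mix (C w) x v)|) ≤ 4 * (d : ℝ) ^ 2 * K * π := by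
    intro v
    have h1 := plant_pt μ hμ0 (fun z => z.1) (fun z => C z.1) (fun z => z.2) hK0 hπ0
      (fun z hz => by
        by_cases hzW : z.1 ∈ W
        · exact hK _ hzW
        · simp only [hμ, if_neg hzW] at hz
          exact absurd hz (lt_irrefl _)) hpop hf v
    rwa [hμs (fun w x => |discreteDeriv w f (mix (C w) x v)|)] at h1
  have hA : ∑ w ∈ W, Iw f w ^ 2 *
      ex (fun v => ex (fun x => gs f w x * |discreteDeriv w f (mix (C w) x v)|)) ≤
      4 * (d : ℝ) ^ 2 * K * π := by
    have h1 := ex_mono hv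
    rw [ex_const, ex_sum] at h1
    refine le_trans (le_of_eq ?_) h1
    refine Finset.sum_congr rfl fun w _ => ?_
    rw [ex_const_mul]
  calc ∑ w ∈ W, Iw f w ^ 4 * Real.exp (∑ a ∈ C w, KL (bw f w a))
      ≤ ∑ w ∈ W, Iw f w ^ 2 * (e *
          ex (fun v => ex (fun x => gs f w x * |discreteDeriv w f (mix (C w) x v)|))) := by
        refine Finset.sum_le_sum fun w _ => ?_
        have h1 := mul_le_mul_of_nonneg_left (gain he w (C w)) (sq_nonneg (Iw f w))
        refine le_trans (le_of_eq ?_) h1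
        ring
    _ = (∑ w ∈ W, Iw f w ^ 2 *
          ex (fun v => ex (fun x => gs f w x * |discreteDeriv w f (mix (C w) x v)|))) * e := by
        rw [Finset.sum_mul]
        refine Finset.sum_congr rfl fun w _ => ?_
        ring
    _ ≤ 4 * (d : ℝ) ^ 2 * K * π * e := mul_le_mul_of_nonneg_right hA he0

end Pool.Agent.AAL
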